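import Mathlib

set_option autoImplicit false

/-!
Kernel computations: Euler's function of small numbers, and the Fermat test to the base 2.
-/

namespace Pool.Agent.Q256.Tot

/-! ### Euler's function by trial division -/

/-- the least divisor `≥ d` of `m` -/
def lf (m : ℕ) : ℕ → ℕ → ℕ
  | 0, _ => m
  | f + 1, d => if m < d * d then m else if m % d = 0 then d else lf m f (d + 1)

theorem lf_eq (m : ℕ) (hm : 2 ≤ m) : ∀ f d : ℕ, 2 ≤ d → (∀ c, 2 ≤ c → c < d → ¬ c ∣ m) →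
    m < (d + f) * (d + f) → lf m f d = m.minFac := by
  have key : ∀ d : ℕ, (∀ c, 2 ≤ c → c < d → ¬ c ∣ m) → d ≤ m.minFac := by
    intro d h
    by_contra hcon
    push Not at hcon
    exact h _ (Nat.minFac_prime (by omega)).two_le hcon (Nat.minFac_dvd m)
  have key2 : ∀ d : ℕ, d ≤ m.minFac → m < d * d → m = m.minFac := by
    intro d h1 h2
    by_contra hne
    have hnp : ¬ m.Prime := by
      intro hp
      exact hne hp.minFac_eq.symm
    have h3 := Nat.minFac_sq_le_self (by omega) hnp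
    have h4 : d * d ≤ m.minFac * m.minFac := Nat.mul_le_mul h1 h1
    rw [sq] at h3
    omega
  intro f
  induction f with
  | zero =>
    intro d _ h1 h2
    unfold lf
    exact key2 d (key d h1) (by simpa using h2)
  | succ f ih =>
    intro d hd h1 h2
    unfold lf
    split_ifs with h3 h4
    · exact key2 d (key d h1) h3
    · apply le_antisymm (key d h1)
      exact Nat.minFac_le_of_dvd hd (Nat.dvd_of_mod_eq_zero h4)
    · apply ih (d + 1) (by omega)
      · intro c hc1 hc2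
        rcases Nat.lt_succ_iff_lt_or_eq.1 hc2 with h | h
        · exact h1 c hc1 h
        · rw [h]
          intro h5
          exact h4 (Nat.mod_eq_zero_of_dvd h5)
      · have e : d + 1 + f = d + (f + 1) := by ring
        rw [e]
        exact h2

/-- Euler's function -/
def tt : ℕ → ℕ → ℕ
  | 0, _ => 1
  | f + 1, m => if m ≤ 1 then 1 else
      if (m / lf m 200 2) % lf m 200 2 = 0 then lf m 200 2 * tt f (m / lf m 200 2)
      else (lf m 200 2 - 1) * tt f (m / lf m 200 2)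

theorem tt_eq : ∀ f m : ℕ, 1 ≤ m → m < 2 ^ f → m < 40000 → tt f m = Nat.totient m := by
  intro f
  induction f with
  | zero =>
    intro m h1 h2 _
    have : m = 0 := by simpa using h2
    omega
  | succ f ih =>
    intro m h1 h2 h3
    unfold tt
    split_ifs with h4 h5
    · have : m = 1 := by omega
      rw [this, Nat.totient_one]
    all_goals
      have hlf : lf m 200 2 = m.minFac := by
        apply lf_eq m (by omega) 200 2 le_rfl
        · intro c hc1 hc2
          omega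
        · norm_num
          omega
      rw [hlf] at h5 ⊢
      have hp : m.minFac.Prime := Nat.minFac_prime (by omega)
      obtain ⟨r, hr⟩ := Nat.minFac_dvd m
      have hmr : m / m.minFac = r := Nat.div_eq_of_eq_mul_right (Nat.minFac_pos m) hr
      rw [hmr] at h5 ⊢
      have hr1 : 1 ≤ r := by
        rcases Nat.eq_zero_or_pos r with h | h
        · rw [h, mul_zero] at hr
          omega
        · exact h
      have hr2 : 2 * r ≤ m := by
        conv_rhs => rw [hr]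
        exact Nat.mul_le_mul_right _ hp.two_le
      rw [ih r hr1 (by rw [pow_succ] at h2; omega) (by omega)]
      conv_rhs => rw [hr]
    · rw [Nat.totient_mul_of_prime_of_dvd hp (Nat.dvd_of_mod_eq_zero h5)]
    · rw [Nat.totient_mul_of_prime_of_not_dvd hp (fun h => h5 (Nat.mod_eq_zero_of_dvd h))]

/-! ### The Fermat test to the base 2 -/

/-- `x ^ 256 * 2 ^ D` modulo `N`, where `D` is the digit with index `j` of `E` to the base `256` -/
def leaf (N E j : ℕ) : ℕ → ℕ := fun x =>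
  (fun x => (fun x => (fun x => (fun x => (fun x => (fun x =>
  (fun x => Nat.mod (Nat.shiftLeft (Nat.mul x x)
    (Nat.land (Nat.shiftRight E (Nat.mul 8 j)) 255)) N)
    (Nat.mod (Nat.mul x x) N)) (Nat.mod (Nat.mul x x) N)) (Nat.mod (Nat.mul x x) N))
    (Nat.mod (Nat.mul x x) N)) (Nat.mod (Nat.mul x x) N)) (Nat.mod (Nat.mul x x) N))
    (Nat.mod (Nat.mul x x) N)

/-- the block with index `j` of `2 ^ l` digits of `E` to the base `256` -/
def go (N E l : ℕ) : ℕ → ℕ → ℕ :=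
  Nat.rec (leaf N E) (fun _ ih j x =>
    Nat.rec 0 (fun y _ => ih (Nat.mul 2 j) (Nat.succ y)) (ih (Nat.succ (Nat.mul 2 j)) x)) l

/-- the same for `x = 1`, if only the last `D` digits of the block are nonzero -/
def top (N E l : ℕ) : ℕ → ℕ → ℕ :=
  Nat.rec (fun j _ => leaf N E j 1) (fun m ih j D =>
    Bool.rec (Nat.rec 0 (fun y _ => go N E m (Nat.mul 2 j) (Nat.succ y))
      (ih (Nat.succ (Nat.mul 2 j)) (Nat.sub D (Nat.pow 2 m))))
      (ih (Nat.mul 2 j) D) (Nat.ble D (Nat.pow 2 m))) l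

theorem go_zero (N E j x : ℕ) : go N E 0 j x = leaf N E j x := rfl

theorem go_succ (N E l j x : ℕ) : go N E (l + 1) j x =
    if go N E l (2 * j + 1) x = 0 then 0 else go N E l (2 * j) (go N E l (2 * j + 1) x) := by
  have h : go N E (l + 1) j x = Nat.rec (motive := fun _ => ℕ) 0
    (fun y _ => go N E l (Nat.mul 2 j) (Nat.succ y)) (go N E l (Nat.succ (Nat.mul 2 j)) x) := rfl
  rw [h]
  have e1 : Nat.mul 2 j = 2 * j := rfl
  have e2 : Nat.succ (Nat.mul 2 j) = 2 * j + 1 := rfl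
  rw [e2, e1]
  rcases hv : go N E l (2 * j + 1) x with _ | v
  · simp
  · simp

theorem top_zero (N E j D : ℕ) : top N E 0 j D = leaf N E j 1 := rfl

theorem top_succ (N E l j D : ℕ) : top N E (l + 1) j D =
    if D ≤ 2 ^ l then top N E l (2 * j) D else
      if top N E l (2 * j + 1) (D - 2 ^ l) = 0 then 0 else
        go N E l (2 * j) (top N E l (2 * j + 1) (D - 2 ^ l)) := by
  have h : top N E (l + 1) j D = Bool.rec (motive := fun _ => ℕ)
      (Nat.rec (motive := fun _ => ℕ) 0 (fun y _ => go N E l (Nat.mul 2 j) (Nat.succ y))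
      (top N E l (Nat.succ (Nat.mul 2 j)) (Nat.sub D (Nat.pow 2 l))))
      (top N E l (Nat.mul 2 j) D) (Nat.ble D (Nat.pow 2 l)) := rfl
  rw [h]
  have e1 : Nat.mul 2 j = 2 * j := rfl
  have e2 : Nat.succ (Nat.mul 2 j) = 2 * j + 1 := rfl
  have e3 : Nat.sub D (Nat.pow 2 l) = D - 2 ^ l := rfl
  rw [e2, e1, e3]
  have e4 : Nat.pow 2 l = 2 ^ l := rfl
  rw [e4]
  by_cases hD : D ≤ 2 ^ l
  · rw [if_pos hD, Nat.ble_eq_true_of_le hD]
  · rw [if_neg hD]
    have h5 : Nat.ble D (2 ^ l) = false := by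
      rw [← Bool.not_eq_true]
      intro h6
      exact hD (Nat.le_of_ble_eq_true h6)
    rw [h5]
    rcases hv : top N E l (2 * j + 1) (D - 2 ^ l) with _ | v
    · simp
    · simp

theorem sq_modEq (N x a : ℕ) (h : x ≡ a [MOD N]) : (x * x) % N ≡ a ^ 2 [MOD N] := by
  rw [sq]
  exact (Nat.mod_modEq _ _).trans (h.mul h)

theorem leaf_modEq (N E j x : ℕ) :
    leaf N E j x ≡ x ^ 256 * 2 ^ (E / 256 ^ j % 256) [MOD N] := by
  obtain ⟨x1, hx1⟩ : ∃ x1, x1 = (x * x) % N := ⟨_, rfl⟩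
  obtain ⟨x2, hx2⟩ : ∃ x2, x2 = (x1 * x1) % N := ⟨_, rfl⟩
  obtain ⟨x3, hx3⟩ : ∃ x3, x3 = (x2 * x2) % N := ⟨_, rfl⟩
  obtain ⟨x4, hx4⟩ : ∃ x4, x4 = (x3 * x3) % N := ⟨_, rfl⟩
  obtain ⟨x5, hx5⟩ : ∃ x5, x5 = (x4 * x4) % N := ⟨_, rfl⟩
  obtain ⟨x6, hx6⟩ : ∃ x6, x6 = (x5 * x5) % N := ⟨_, rfl⟩
  obtain ⟨x7, hx7⟩ : ∃ x7, x7 = (x6 * x6) % N := ⟨_, rfl⟩
  have h7 : x7 ≡ x ^ 128 [MOD N] := by
    have h1 : x1 ≡ x ^ 2 [MOD N] := by rw [hx1]; exact sq_modEq N x x (Nat.ModEq.refl _)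
    have h2 : x2 ≡ (x ^ 2) ^ 2 [MOD N] := by rw [hx2]; exact sq_modEq N _ _ h1
    have h3 : x3 ≡ ((x ^ 2) ^ 2) ^ 2 [MOD N] := by rw [hx3]; exact sq_modEq N _ _ h2
    have h4 : x4 ≡ (((x ^ 2) ^ 2) ^ 2) ^ 2 [MOD N] := by rw [hx4]; exact sq_modEq N _ _ h3
    have h5 : x5 ≡ ((((x ^ 2) ^ 2) ^ 2) ^ 2) ^ 2 [MOD N] := by rw [hx5]; exact sq_modEq N _ _ h4
    have h6 : x6 ≡ (((((x ^ 2) ^ 2) ^ 2) ^ 2) ^ 2) ^ 2 [MOD N] := by
      rw [hx6]; exact sq_modEq N _ _ h5
    have h7 : x7 ≡ ((((((x ^ 2) ^ 2) ^ 2) ^ 2) ^ 2) ^ 2) ^ 2 [MOD N] := by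
      rw [hx7]; exact sq_modEq N _ _ h6
    simp only [← pow_mul] at h7
    exact h7
  have e : leaf N E j x = ((x7 * x7) * 2 ^ (E / 256 ^ j % 256)) % N := by
    have e1 : leaf N E j x = ((x7 * x7) <<< ((E >>> (8 * j)) &&& 255)) % N := by
      rw [hx7, hx6, hx5, hx4, hx3, hx2, hx1]
      rfl
    rw [e1, Nat.shiftLeft_eq, Nat.shiftRight_eq_div_pow]
    have e2 : (255 : ℕ) = 2 ^ 8 - 1 := by norm_num
    rw [e2, Nat.and_two_pow_sub_one_eq_mod]
    have e3 : 2 ^ (8 * j) = 256 ^ j := by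
      rw [pow_mul]
      norm_num
    rw [e3]
  rw [e]
  refine (Nat.mod_modEq _ _).trans ?_
  refine Nat.ModEq.mul_right _ ?_
  have h8 := h7.mul h7
  rwa [← pow_add] at h8

theorem go_modEq (N E : ℕ) : ∀ l j x : ℕ, go N E l j x ≡
    x ^ (256 ^ 2 ^ l) * 2 ^ (E / (256 ^ 2 ^ l) ^ j % (256 ^ 2 ^ l)) [MOD N] := by
  intro l
  induction l with
  | zero =>
    intro j x
    rw [go_zero]
    simpa using leaf_modEq N E j x
  | succ l ih =>
    intro j x
    obtain ⟨A, hA⟩ : ∃ A, A = 256 ^ 2 ^ l := ⟨_, rfl⟩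
    have hA2 : 256 ^ 2 ^ (l + 1) = A * A := by
      rw [hA, ← pow_add, ← two_mul, ← pow_succ']
    have hApos : 0 < A := by rw [hA]; positivity
    rw [← hA] at ih
    rw [hA2]
    have hcomb : x ^ (A * A) * 2 ^ (E / (A * A) ^ j % (A * A)) =
        (x ^ A * 2 ^ (E / A ^ (2 * j + 1) % A)) ^ A * 2 ^ (E / A ^ (2 * j) % A) := by
      conv_rhs => rw [mul_pow, ← pow_mul, ← pow_mul, mul_assoc, ← pow_add]
      congr 2
      have e1 : (A * A) ^ j = A ^ (2 * j) := by rw [← sq, ← pow_mul]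
      rw [e1, Nat.mod_mul, pow_succ, ← Nat.div_div_eq_div_mul]
      ring
    rw [hcomb]
    have h1 := ih (2 * j + 1) x
    rw [go_succ]
    split_ifs with h0
    · rw [h0] at h1
      have h2 : 0 ^ A * 2 ^ (E / A ^ (2 * j) % A) ≡
          (x ^ A * 2 ^ (E / A ^ (2 * j + 1) % A)) ^ A * 2 ^ (E / A ^ (2 * j) % A) [MOD N] :=
        (h1.pow A).mul_right _
      rwa [zero_pow hApos.ne', zero_mul] at h2
    · exact (ih (2 * j) _).trans ((h1.pow A).mul_right _)

theorem top_modEq (N E : ℕ) : ∀ l j D : ℕ,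
    E / (256 ^ 2 ^ l) ^ j % (256 ^ 2 ^ l) < 256 ^ D → top N E l j D ≡
    2 ^ (E / (256 ^ 2 ^ l) ^ j % (256 ^ 2 ^ l)) [MOD N] := by
  intro l
  induction l with
  | zero =>
    intro j D _
    rw [top_zero]
    simpa using leaf_modEq N E j 1
  | succ l ih =>
    intro j D hD
    obtain ⟨A, hA⟩ : ∃ A, A = 256 ^ 2 ^ l := ⟨_, rfl⟩
    have hA2 : 256 ^ 2 ^ (l + 1) = A * A := by
      rw [hA, ← pow_add, ← two_mul, ← pow_succ']
    have hApos : 0 < A := by rw [hA]; positivity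
    have hgo := go_modEq N E l
    rw [← hA] at ih hgo
    rw [hA2] at hD ⊢
    have e1 : (A * A) ^ j = A ^ (2 * j) := by rw [← sq, ← pow_mul]
    have e2 : E / (A * A) ^ j % (A * A) =
        E / A ^ (2 * j) % A + A * (E / A ^ (2 * j + 1) % A) := by
      rw [e1, Nat.mod_mul, pow_succ, ← Nat.div_div_eq_div_mul]
    rw [e2] at hD ⊢
    rw [top_succ]
    split_ifs with h1 h2
    · -- the upper half of the block is zero
      have h3 : 256 ^ D ≤ A := by
        rw [hA]
        exact Nat.pow_le_pow_right (by norm_num) h1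
      have h4 : E / A ^ (2 * j + 1) % A = 0 := by
        by_contra hne
        have : 1 ≤ E / A ^ (2 * j + 1) % A := Nat.pos_of_ne_zero hne
        have : A * 1 ≤ A * (E / A ^ (2 * j + 1) % A) := Nat.mul_le_mul_left _ this
        omega
      rw [h4, mul_zero, add_zero]
      rw [h4, mul_zero, add_zero] at hD
      exact ih (2 * j) D hD
    all_goals
      push Not at h1
      have h3 : E / A ^ (2 * j + 1) % A < 256 ^ (D - 2 ^ l) := by
        by_contra hcon
        push Not at hcon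
        have h4 : A * 256 ^ (D - 2 ^ l) ≤ A * (E / A ^ (2 * j + 1) % A) := Nat.mul_le_mul_left _ hcon
        have h5 : A * 256 ^ (D - 2 ^ l) = 256 ^ D := by
          rw [hA, ← pow_add]
          congr 1
          omega
        omega
      have h6 := ih (2 * j + 1) _ h3
      have h7 : 2 ^ (E / A ^ (2 * j) % A + A * (E / A ^ (2 * j + 1) % A)) =
          (2 ^ (E / A ^ (2 * j + 1) % A)) ^ A * 2 ^ (E / A ^ (2 * j) % A) := by
        rw [← pow_mul, ← pow_add]
        congr 1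
        ring
      rw [h7]
    · rw [h2] at h6
      have h8 : 0 ^ A * 2 ^ (E / A ^ (2 * j) % A) ≡
          (2 ^ (E / A ^ (2 * j + 1) % A)) ^ A * 2 ^ (E / A ^ (2 * j) % A) [MOD N] :=
        (h6.pow A).mul_right _
      rwa [zero_pow hApos.ne', zero_mul] at h8
    · exact (hgo (2 * j) _).trans ((h6.pow A).mul_right _)

theorem leaf_lt (N E j x : ℕ) (hN : 0 < N) : leaf N E j x < N := Nat.mod_lt _ hN

theorem go_lt (N E : ℕ) (hN : 0 < N) : ∀ l j x : ℕ, go N E l j x < N := by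
  intro l
  induction l with
  | zero => intro j x; exact leaf_lt N E j x hN
  | succ l ih =>
    intro j x
    rw [go_succ]
    split_ifs with h
    · exact hN
    · exact ih _ _

theorem top_lt (N E : ℕ) (hN : 0 < N) : ∀ l j D : ℕ, top N E l j D < N := by
  intro l
  induction l with
  | zero => intro j x; exact leaf_lt N E j 1 hN
  | succ l ih =>
    intro j x
    rw [top_succ]
    split_ifs with h1 h2
    · exact ih _ _
    · exact hN
    · exact go_lt N E hN _ _ _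

/-- the Fermat test; `N` has at most `D ≤ 2 ^ L` digits to the base `256` -/
def ftest (N L D : ℕ) : Bool :=
  Nat.beq (Nat.mod N 2) 1 && Nat.ble N (Nat.pow 256 D) && Nat.ble D (Nat.pow 2 L) &&
    !(Nat.beq (top N (Nat.sub N 1) L 0 D) 1)

theorem not_prime_of_ftest (N L D : ℕ) (h : ftest N L D = true) : ¬ N.Prime := by
  intro hp
  unfold ftest at h
  rw [Bool.and_eq_true, Bool.and_eq_true, Bool.and_eq_true] at h
  obtain ⟨⟨⟨h2, h3⟩, h4⟩, h1⟩ := h
  have h2' : N % 2 = 1 := Nat.eq_of_beq_eq_true h2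
  have h3' : N ≤ 256 ^ D := Nat.le_of_ble_eq_true h3
  have h4' : D ≤ 2 ^ L := Nat.le_of_ble_eq_true h4
  have hcop : Nat.Coprime 2 N := (Nat.Prime.coprime_iff_not_dvd Nat.prime_two).2 (by omega)
  have hE : N - 1 < 256 ^ D := by have := hp.pos; omega
  have hE2 : N - 1 < 256 ^ 2 ^ L := hE.trans_le (Nat.pow_le_pow_right (by norm_num) h4')
  have h5 : 2 ^ (N - 1) ≡ 1 [MOD N] := by
    have h5 := Nat.ModEq.pow_totient hcop
    rwa [Nat.totient_prime hp] at h5
  have h6 := top_modEq N (N - 1) L 0 D (by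
    rw [pow_zero, Nat.div_one, Nat.mod_eq_of_lt hE2]
    exact hE)
  rw [pow_zero, Nat.div_one, Nat.mod_eq_of_lt hE2] at h6
  have h7 : top N (N - 1) L 0 D = 1 := by
    have h8 : top N (N - 1) L 0 D < N := top_lt N _ hp.pos L 0 D
    have h9 : top N (N - 1) L 0 D % N = 1 % N := h6.trans h5
    rwa [Nat.mod_eq_of_lt h8, Nat.mod_eq_of_lt hp.one_lt] at h9
  have e : Nat.sub N 1 = N - 1 := rfl
  rw [e, h7] at h1
  simp at h1

/-- `q` is a proper divisor of `N` -/
def qtest (N q : ℕ) : Bool := Nat.ble 2 q && Nat.ble (Nat.succ q) N && Nat.beq (Nat.mod N q) 0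

theorem not_prime_of_qtest (N q : ℕ) (h : qtest N q = true) : ¬ N.Prime := by
  intro hp
  unfold qtest at h
  rw [Bool.and_eq_true, Bool.and_eq_true] at h
  obtain ⟨⟨h1, h2⟩, h3⟩ := h
  have h1' : 2 ≤ q := Nat.le_of_ble_eq_true h1
  have h2' : q + 1 ≤ N := Nat.le_of_ble_eq_true h2
  have h3' : N % q = 0 := Nat.eq_of_beq_eq_true h3
  rcases (Nat.dvd_prime hp).1 (Nat.dvd_of_mod_eq_zero h3') with h4 | h4
  · omega
  · omega

end Pool.Agent.Q256.Tot
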